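import Pool.Agent.Helper25.PCap.GoalsFin

set_option autoImplicit false

open MeasureTheory Set Filter Topology
open scoped ContDiff Real

noncomputable section

namespace Pool.Agent.Helper25.PCap

theorem capSet_bdd (p : ℝ) (Ω : Set E2) : BddBelow (capSet p Ω) := by
  refine ⟨0, ?_⟩
  rintro c ⟨u, -, -, -, rfl⟩
  exact integral_nonneg fun x => Real.rpow_nonneg (norm_nonneg _) _

theorem capSet_nonempty (p : ℝ) (Ω : Set E2) (hb : Bornology.IsBounded Ω) :
    (capSet p Ω).Nonempty := by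
  obtain ⟨R, hR⟩ := hb.subset_ball (0 : E2)
  let f : ContDiffBump (0 : E2) := ⟨max R 0 + 1, max R 0 + 2, by positivity, by linarith⟩
  refine ⟨_, f, f.contDiff, f.hasCompactSupport, ⟨Metric.ball 0 (max R 0 + 1), Metric.isOpen_ball,
    ?_, ?_⟩, rfl⟩
  · exact hR.trans (Metric.ball_subset_ball (by linarith [le_max_left R 0]))
  · intro x hx
    exact (f.one_of_mem_closedBall (Metric.ball_subset_closedBall hx)).ge

theorem pkFinal (f1 : GFin1) (f2 : GFin2) (pb : PartB) (h8 : GS8) (h13 : GS13) (hsh : GShift)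
    (h3 : GP3) (hs : GSupp) : GFinal := by
  intro κ h0 h1 Ω hne hb hc a b hab
  refine le_csInf (capSet_nonempty _ _ hb) ?_
  intro c hcm
  refine le_of_forall_pos_le_add fun e he => ?_
  obtain ⟨C, hC, hcap⟩ := f1 κ h0 h1 Ω hne hb hc c hcm (e / 2) (by positivity)
  obtain ⟨S⟩ := h8 κ h0 h1
  obtain ⟨F, hF⟩ := h13 κ h0 h1 S
  have he0 : (1 - κ) ≠ 0 := by linarith
  have hFC : F.C0 = S.C0 := by rw [← hF]
  set h : ℝ := Real.log (C.C0 / S.C0) / (1 - κ) with hh
  have hlog : (1 - κ) * h = Real.log (C.C0 / S.C0) := by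
    rw [hh]; field_simp
  have hexp : Real.exp ((1 - κ) * h) = C.C0 / S.C0 := by
    rw [hlog, Real.exp_log (div_pos C.C0pos S.C0pos)]
  have hexp' : Real.exp ((1 - κ) * (-h)) = S.C0 / C.C0 := by
    have : (1 - κ) * (-h) = -((1 - κ) * h) := by ring
    rw [this, Real.exp_neg, hexp, inv_div]
  obtain ⟨C', hC'0, hC'H⟩ := (hsh κ h0 h1 C).1 (-h)
  have hC'0' : C'.C0 = F.C0 := by
    rw [hC'0, hexp', hFC]
    have := C.C0pos.ne'
    field_simp
  have hper := pb κ h0 h1 F C' hC'0'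
  have hperS : F.toSData.Per = S.Per := by rw [hF]
  rw [hperS] at hper
  have hI : ∫ θ in (0 : ℝ)..(2 * π), C'.H θ = Real.exp (-h) * ∫ θ in (0 : ℝ)..(2 * π), C.H θ := by
    rw [← intervalIntegral.integral_const_mul]
    exact intervalIntegral.integral_congr fun θ _ => hC'H θ
  rw [hI] at hper
  have hper2 : ∫ θ in (0 : ℝ)..(2 * π), C.H θ ≤ Real.exp h * S.Per := by
    have h2 := mul_le_mul_of_nonneg_left hper (Real.exp_pos h).le
    rw [← mul_assoc, ← Real.exp_add] at h2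
    simpa using h2
  have hmono : ∫ θ in (0 : ℝ)..(2 * π), hE Ω θ ≤ ∫ θ in (0 : ℝ)..(2 * π), C.H θ := by
    refine intervalIntegral.integral_mono_on (by positivity) ?_ ?_ fun θ _ => hC θ
    · exact (hs Ω hne hb hc).1.intervalIntegrable _ _
    · exact (h3 κ h0 h1 C).2.1.intervalIntegrable _ _
  have hab' : 2 * dist a b ≤ Real.exp h * S.Per := by
    rw [hab]; exact hmono.trans hper2
  obtain ⟨c', hc'm, hc'⟩ := f2 κ h0 h1 S h a b hab' (e / 2) (by positivity)
  have hval : 2 * π * (1 - κ) * (S.C0 * Real.exp ((1 - κ) * h)) / κ = C.cap := by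
    rw [hexp, Config.cap]
    have := S.C0pos.ne'
    field_simp
  rw [hval] at hc'
  have := csInf_le (capSet_bdd (1 + κ) (segment ℝ a b)) hc'm
  linarith

end Pool.Agent.Helper25.PCap
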